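import Pool.Agent.Lib.MP_4f027a_co.Main

/-!
# Fixed-q Bott-Samelson distributions determine the commutation class

For every real `q > 0` (in particular for every positive integer `q`), two reduced words of the
same permutation with the same Bott-Samelson distribution at this single value `q` lie in the same
commutation class.
-/

namespace Pool.Agent.Results.MP_4f027a_co.FixedQ

open Equiv

/-- The simple transposition `s_i = (i i+1)` of the symmetric group on `n+1` points
(the points are numbered `0, ..., n` and `i = 0, ..., n-1`). -/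
def s {n : ℕ} (i : Fin n) : Perm (Fin (n + 1)) := Equiv.swap i.castSucc i.succ

/-- The set of inversions of `w`. -/
def inversions {n : ℕ} (w : Perm (Fin (n + 1))) : Finset (Fin (n + 1) × Fin (n + 1)) :=
  Finset.univ.filter fun p => p.1 < p.2 ∧ w p.2 < w p.1

/-- The length of `w`, i.e. its number of inversions. -/
def len {n : ℕ} (w : Perm (Fin (n + 1))) : ℕ := (inversions w).card

/-- The permutation `s_{i_1} ... s_{i_L}` of a word. -/
def wordProd {n : ℕ} (R : List (Fin n)) : Perm (Fin (n + 1)) := (R.map s).prod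

/-- A word is reduced if the length of its permutation is the length of the word. -/
def Reduced {n : ℕ} (R : List (Fin n)) : Prop := len (wordProd R) = R.length

/-- A commutation move replaces two adjacent letters `i j` by `j i` when `|i - j| > 1`. -/
def CommMove {n : ℕ} (R R' : List (Fin n)) : Prop :=
  ∃ (A B : List (Fin n)) (i j : Fin n), (i.val + 1 < j.val ∨ j.val + 1 < i.val) ∧
    R = A ++ [i, j] ++ B ∧ R' = A ++ [j, i] ++ B

/-- Two words lie in the same commutation class. -/
def SameCommClass {n : ℕ} (R R' : List (Fin n)) : Prop := Relation.ReflTransGen CommMove R R'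

/-- The coefficient of `T_w` in the product `T_v T_i` of the Iwahori-Hecke algebra with parameter
`q`: the product is `T_{v s_i}` if `v s_i` is longer than `v`, and
`(q-1) T_v + q T_{v s_i}` otherwise. -/
noncomputable def TmulT {n : ℕ} (q : ℝ) (v : Perm (Fin (n + 1))) (i : Fin n)
    (w : Perm (Fin (n + 1))) : ℝ :=
  if len v < len (v * s i) then (if w = v * s i then 1 else 0)
  else (q - 1) * (if w = v then 1 else 0) + q * (if w = v * s i then 1 else 0)

/-- The coefficients of `x (1 + T_i)` for the element `x = ∑_v c_v T_v` of the Hecke algebra. -/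
noncomputable def mulOneAddT {n : ℕ} (q : ℝ) (c : Perm (Fin (n + 1)) → ℝ) (i : Fin n) :
    Perm (Fin (n + 1)) → ℝ :=
  fun w => c w + ∑ v, c v * TmulT q v i w

/-- The coefficients `c_{R,w}(q)` in `∏_r (1 + T_{i_r}) = ∑_w c_{R,w}(q) T_w`. -/
noncomputable def coef {n : ℕ} (q : ℝ) (R : List (Fin n)) : Perm (Fin (n + 1)) → ℝ :=
  R.foldl (mulOneAddT q) (fun w => if w = 1 then 1 else 0)

/-- The Bott-Samelson distribution
`P_{R,q}(w) = q^{ℓ(w)} c_{R,w}(q) / (1+q)^L`, `L` the length of the word `R`. -/
noncomputable def bsProb {n : ℕ} (q : ℝ) (R : List (Fin n)) (w : Perm (Fin (n + 1))) : ℝ :=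
  q ^ len w * coef q R w / (1 + q) ^ R.length

/-! ### bridge to lists -/

open Pool.Agent.BSq

/-- one-line form of a permutation -/
def toL {n : ℕ} (w : Perm (Fin (n + 1))) : List ℕ := List.ofFn fun k => (w k : ℕ)

theorem sw_getElem? : ∀ (i : ℕ) (u : List ℕ) (k : ℕ), i + 1 < u.length →
    (sw i u)[k]? = if k = i then u[i + 1]? else if k = i + 1 then u[i]? else u[k]?
  | _, [], _, h => by simp at h
  | _, [x], _, h => by simp at h
  | 0, x :: y :: l, k, _ => by
    match k with
    | 0 => simp
    | 1 => simp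
    | k + 2 => simp
  | i + 1, x :: y :: l, k, h => by
    match k with
    | 0 => simp
    | k + 1 =>
      have := sw_getElem? i (y :: l) k (by simp at h ⊢; omega)
      rw [sw_succ, List.getElem?_cons_succ, this]
      simp

theorem toL_length {n : ℕ} (w : Perm (Fin (n + 1))) : (toL w).length = n + 1 := by simp [toL]

theorem toL_getElem? {n : ℕ} (w : Perm (Fin (n + 1))) (k : Fin (n + 1)) :
    (toL w)[(k : ℕ)]? = some (w k : ℕ) := by
  have hk := k.isLt
  unfold toL
  rw [List.getElem?_ofFn, dif_pos hk]

theorem toL_injective {n : ℕ} : Function.Injective (toL (n := n)) := by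
  intro v w h
  apply Equiv.ext
  intro k
  have h1 := toL_getElem? v k
  rw [h, toL_getElem? w k] at h1
  simp only [Option.some.injEq] at h1
  exact Fin.ext h1.symm

theorem toL_mul_s {n : ℕ} (w : Perm (Fin (n + 1))) (i : Fin n) :
    toL (w * s i) = sw i.val (toL w) := by
  apply List.ext_getElem?
  intro k
  by_cases hk : k < n + 1
  · have h1 := toL_getElem? (w * s i) ⟨k, hk⟩
    simp only at h1
    have hi := i.isLt
    rw [h1, sw_getElem? _ _ _ (by rw [toL_length]; omega)]
    have h2 := toL_getElem? w i.succ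
    have h3 := toL_getElem? w i.castSucc
    have h4 := toL_getElem? w ⟨k, hk⟩
    simp only [Fin.val_succ, Fin.val_castSucc] at h2 h3 h4
    rw [h2, h3, h4]
    by_cases e1 : k = i.val
    · have : (⟨k, hk⟩ : Fin (n + 1)) = i.castSucc := Fin.ext e1
      rw [if_pos e1, this]
      simp [s]
    · by_cases e2 : k = i.val + 1
      · have : (⟨k, hk⟩ : Fin (n + 1)) = i.succ := Fin.ext e2
        rw [if_neg e1, if_pos e2, this]
        simp [s]
      · rw [if_neg e1, if_neg e2]
        have e3 : (⟨k, hk⟩ : Fin (n + 1)) ≠ i.castSucc := fun h => e1 (congrArg Fin.val h)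
        have e4 : (⟨k, hk⟩ : Fin (n + 1)) ≠ i.succ := fun h => e2 (congrArg Fin.val h)
        simp only [Perm.mul_apply, s]
        rw [Equiv.swap_apply_of_ne_of_ne e3 e4]
  · rw [List.getElem?_eq_none, List.getElem?_eq_none]
    · rw [sw_length, toL_length]; omega
    · rw [toL_length]; omega

theorem pr_getElem? : ∀ (i : ℕ) (u : List ℕ), i + 1 < u.length →
    u[i]? = some (pr i u).1 ∧ u[i + 1]? = some (pr i u).2
  | _, [], h => by simp at h
  | _, [x], h => by simp at h
  | 0, x :: y :: l, _ => by simp
  | i + 1, x :: y :: l, h => by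
    have := pr_getElem? i (y :: l) (by simp at h ⊢; omega)
    simpa using this

theorem pr_toL {n : ℕ} (w : Perm (Fin (n + 1))) (i : Fin n) :
    pr i.val (toL w) = ((w i.castSucc : ℕ), (w i.succ : ℕ)) := by
  have hi := i.isLt
  obtain ⟨h1, h2⟩ := pr_getElem? i.val (toL w) (by rw [toL_length]; omega)
  have h3 := toL_getElem? w i.succ
  have h4 := toL_getElem? w i.castSucc
  simp only [Fin.val_succ, Fin.val_castSucc] at h3 h4
  rw [h4] at h1
  rw [h3] at h2
  simp only [Option.some.injEq] at h1 h2
  exact Prod.ext h1.symm h2.symm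

theorem asc_toL {n : ℕ} (w : Perm (Fin (n + 1))) (i : Fin n) :
    asc i.val (toL w) ↔ w i.castSucc < w i.succ := by
  have hi := i.isLt
  rw [asc_iff_pr (by rw [toL_length]; omega), pr_toL, Fin.lt_def]

theorem des_toL {n : ℕ} (w : Perm (Fin (n + 1))) (i : Fin n) :
    des i.val (toL w) ↔ w i.succ < w i.castSucc := by
  rw [← asc_sw_iff_des, ← toL_mul_s, asc_toL]
  simp [s]

/-! ### length -/

theorem s_lt {n : ℕ} (i : Fin n) {x y : Fin (n + 1)} (h : x < y)
    (hne : (x, y) ≠ (i.castSucc, i.succ)) : s i x < s i y := by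
  have hne' : ¬ ((x : ℕ) = i ∧ (y : ℕ) = i + 1) := by
    intro ⟨h1, h2⟩
    apply hne
    have h3 : x = i.castSucc := Fin.ext h1
    have h4 : y = i.succ := Fin.ext h2
    rw [h3, h4]
  have key : ∀ t : Fin (n + 1), ((s i t : Fin (n + 1)) : ℕ) =
      if (t : ℕ) = i then (i : ℕ) + 1 else if (t : ℕ) = i + 1 then (i : ℕ) else t := by
    intro t
    unfold s
    rw [Equiv.swap_apply_def]
    by_cases h1 : t = i.castSucc
    · subst h1
      simp
    · by_cases h2 : t = i.succ
      · subst h2
        rw [if_neg h1, if_pos rfl]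
        simp
      · have h3 : ¬ (t : ℕ) = i := fun h => h1 (Fin.ext h)
        have h4 : ¬ (t : ℕ) = i + 1 := fun h => h2 (Fin.ext h)
        rw [if_neg h1, if_neg h2, if_neg h3, if_neg h4]
  have h' : (x : ℕ) < y := h
  rw [Fin.lt_def, key, key]
  split_ifs <;> omega

theorem s_s {n : ℕ} (i : Fin n) (x : Fin (n + 1)) : s i (s i x) = x := by simp [s]

theorem mem_inversions {n : ℕ} (w : Perm (Fin (n + 1))) (p : Fin (n + 1) × Fin (n + 1)) :
    p ∈ inversions w ↔ p.1 < p.2 ∧ w p.2 < w p.1 := by
  unfold inversions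
  rw [Finset.mem_filter]
  simp only [Finset.mem_univ, true_and]

theorem erase_aux {n : ℕ} (v w : Perm (Fin (n + 1))) (i : Fin n) (hvw : ∀ x, v x = w (s i x))
    (p : Fin (n + 1) × Fin (n + 1)) (hp : p ∈ (inversions v).erase (i.castSucc, i.succ)) :
    (s i p.1, s i p.2) ∈ (inversions w).erase (i.castSucc, i.succ) := by
  have hlt : i.castSucc < i.succ := Fin.castSucc_lt_succ
  rw [Finset.mem_erase, mem_inversions] at hp ⊢
  obtain ⟨h3, h1, h2⟩ := hp
  rw [hvw, hvw] at h2
  refine ⟨?_, s_lt i h1 h3, h2⟩
  intro h4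
  simp only [Prod.mk.injEq] at h4
  have h5 : p.1 = i.succ := by rw [← s_s i p.1, h4.1]; simp [s]
  have h6 : p.2 = i.castSucc := by rw [← s_s i p.2, h4.2]; simp [s]
  rw [h5, h6] at h1
  exact lt_asymm hlt h1

theorem card_erase {n : ℕ} (w : Perm (Fin (n + 1))) (i : Fin n) :
    ((inversions (w * s i)).erase (i.castSucc, i.succ)).card =
      ((inversions w).erase (i.castSucc, i.succ)).card := by
  apply Finset.card_nbij' (fun p => (s i p.1, s i p.2)) (fun p => (s i p.1, s i p.2))
  · intro p hp
    exact erase_aux (w * s i) w i (fun x => rfl) p hp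
  · intro p hp
    exact erase_aux w (w * s i) i (fun x => by rw [Perm.mul_apply, s_s]) p hp
  · intro p _; simp only [s_s]
  · intro p _; simp only [s_s]

theorem len_mul_of_lt {n : ℕ} (w : Perm (Fin (n + 1))) (i : Fin n)
    (h : w i.castSucc < w i.succ) : len (w * s i) = len w + 1 := by
  have h1 := card_erase w i
  have h2 : (i.castSucc, i.succ) ∈ inversions (w * s i) := by
    rw [mem_inversions]
    refine ⟨Fin.castSucc_lt_succ, ?_⟩
    simpa [s] using h
  have h3 : (i.castSucc, i.succ) ∉ inversions w := by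
    rw [mem_inversions]
    intro h3
    exact lt_asymm h h3.2
  rw [Finset.card_erase_of_mem h2, Finset.erase_eq_of_notMem h3] at h1
  have h4 : 0 < (inversions (w * s i)).card := Finset.card_pos.mpr ⟨_, h2⟩
  unfold len
  omega

theorem mul_s_s {n : ℕ} (w : Perm (Fin (n + 1))) (i : Fin n) : w * s i * s i = w := by
  rw [mul_assoc]; simp [s]

theorem len_mul_of_gt {n : ℕ} (w : Perm (Fin (n + 1))) (i : Fin n)
    (h : w i.succ < w i.castSucc) : len w = len (w * s i) + 1 := by
  have h1 := len_mul_of_lt (w * s i) i (by simpa [s] using h)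
  rwa [mul_s_s] at h1

theorem s_ne_one {n : ℕ} (w : Perm (Fin (n + 1))) (i : Fin n) : w ≠ w * s i := by
  intro h
  have h1 : s i = 1 := by
    have : w * 1 = w * s i := by rw [mul_one]; exact h
    exact (mul_left_cancel this).symm
  have h2 : s i i.castSucc = i.castSucc := by rw [h1]; rfl
  simp only [s, Equiv.swap_apply_left] at h2
  exact absurd h2 (ne_of_gt Fin.castSucc_lt_succ)

theorem wordProd_append {n : ℕ} (R : List (Fin n)) (i : Fin n) :
    wordProd (R ++ [i]) = wordProd R * s i := by
  simp [wordProd]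

theorem lt_or_gt' {n : ℕ} (w : Perm (Fin (n + 1))) (i : Fin n) :
    w i.castSucc < w i.succ ∨ w i.succ < w i.castSucc := by
  apply lt_or_gt_of_ne
  intro h
  exact absurd (w.injective h) (ne_of_lt Fin.castSucc_lt_succ)

theorem len_one {n : ℕ} : len (1 : Perm (Fin (n + 1))) = 0 := by
  unfold len inversions
  rw [Finset.card_eq_zero, Finset.filter_eq_empty_iff]
  intro p _ h
  exact lt_asymm h.1 h.2

theorem len_le {n : ℕ} (R : List (Fin n)) : len (wordProd R) ≤ R.length := by
  induction R using List.reverseRecOn with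
  | nil => simp [wordProd, len_one]
  | append_singleton R i ih =>
    rw [wordProd_append, List.length_append, List.length_singleton]
    rcases lt_or_gt' (wordProd R) i with h | h
    · rw [len_mul_of_lt _ _ h]; omega
    · have := len_mul_of_gt _ _ h; omega

theorem act_toL {n : ℕ} (R : List (Fin n)) :
    act (toL (1 : Perm (Fin (n + 1)))) (R.map Fin.val) = toL (wordProd R) := by
  induction R using List.reverseRecOn with
  | nil => rfl
  | append_singleton R i ih =>
    rw [wordProd_append, toL_mul_s, ← ih, List.map_append, act_append]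
    rfl

theorem valid_of_reduced {n : ℕ} (R : List (Fin n)) (h : Reduced R) :
    valid (toL (1 : Perm (Fin (n + 1)))) (R.map Fin.val) := by
  induction R using List.reverseRecOn with
  | nil => simp
  | append_singleton R i ih =>
    unfold Reduced at h ih
    rw [wordProd_append, List.length_append, List.length_singleton] at h
    have h1 := len_le R
    rcases lt_or_gt' (wordProd R) i with h2 | h2
    · have h3 := len_mul_of_lt _ _ h2
      rw [List.map_append, valid_append]
      refine ⟨ih (by omega), ?_⟩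
      rw [act_toL]
      simp only [List.map_cons, List.map_nil, valid_cons, valid_nil, and_true]
      exact (asc_toL _ _).mpr h2
    · have h3 := len_mul_of_gt _ _ h2
      omega

/-! ### the distribution as a process -/

theorem mulOneAddT_apply {n : ℕ} (q : ℝ) (c : Perm (Fin (n + 1)) → ℝ) (i : Fin n)
    (w : Perm (Fin (n + 1))) :
    mulOneAddT q c i w =
      if w i.castSucc < w i.succ then c w + q * c (w * s i) else q * c w + c (w * s i) := by
  unfold mulOneAddT
  rw [Finset.sum_eq_add w (w * s i) (s_ne_one w i)]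
  · have e1 : w * s i * s i = w := mul_s_s w i
    unfold TmulT
    rw [e1]
    have e2 : w ≠ w * s i := s_ne_one w i
    rcases lt_or_gt' w i with h | h
    · have h1 := len_mul_of_lt w i h
      have h2 : len w < len (w * s i) := by omega
      have h3 : ¬ len (w * s i) < len w := by omega
      simp only [if_pos h2, if_neg e2, if_neg h3, if_true, if_pos h]
      ring
    · have h1 := len_mul_of_gt w i h
      have h2 : ¬ len w < len (w * s i) := by omega
      have h3 : len (w * s i) < len w := by omega
      simp only [if_neg h2, if_neg e2, if_pos h3, if_true, if_neg (lt_asymm h)]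
      ring
  · intro v _ hv
    have e1 : w ≠ v := hv.1.symm
    have e2 : w ≠ v * s i := by
      intro h
      apply hv.2
      rw [h, mul_s_s]
    unfold TmulT
    rw [if_neg e1, if_neg e2]
    split_ifs <;> ring
  · intro h; exact absurd (Finset.mem_univ _) h
  · intro h; exact absurd (Finset.mem_univ _) h

theorem K_toL {n : ℕ} {q : ℝ} (hq : 0 < q) (c : Perm (Fin (n + 1)) → ℝ) (P : List ℕ → ℝ) (k : ℕ)
    (h : ∀ w : Perm (Fin (n + 1)), P (toL w) = q ^ len w * c w / (1 + q) ^ k) (i : Fin n)
    (w : Perm (Fin (n + 1))) :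
    K (q / (1 + q)) (1 / (1 + q)) i.val P (toL w) =
      q ^ len w * mulOneAddT q c i w / (1 + q) ^ (k + 1) := by
  unfold K
  rw [← toL_mul_s, h, h, mulOneAddT_apply]
  have hq1 : (1 + q) ≠ 0 := by positivity
  have hq2 : (1 + q) ^ k ≠ 0 := pow_ne_zero _ hq1
  unfold wt
  rcases lt_or_gt' w i with h1 | h1
  · have h2 := len_mul_of_lt w i h1
    rw [if_neg (fun h3 => lt_asymm h1 ((des_toL w i).mp h3)), if_pos h1, h2]
    field_simp
    try ring
  · have h2 := len_mul_of_gt w i h1
    rw [if_pos ((des_toL w i).mpr h1), if_neg (lt_asymm h1), h2]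
    field_simp
    try ring

theorem Pf_toL {n : ℕ} {q : ℝ} (hq : 0 < q) : ∀ (R : List (Fin n))
    (c : Perm (Fin (n + 1)) → ℝ) (P : List ℕ → ℝ) (k : ℕ),
    (∀ w : Perm (Fin (n + 1)), P (toL w) = q ^ len w * c w / (1 + q) ^ k) →
    ∀ w : Perm (Fin (n + 1)), Pf (q / (1 + q)) (1 / (1 + q)) P (R.map Fin.val) (toL w) =
      q ^ len w * R.foldl (mulOneAddT q) c w / (1 + q) ^ (k + R.length)
  | [], c, P, k, h, w => by simpa [Pf] using h w
  | i :: R, c, P, k, h, w => by
    have := Pf_toL hq R (mulOneAddT q c i) (K (q / (1 + q)) (1 / (1 + q)) i.val P) (k + 1)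
      (K_toL hq c P k h i) w
    simp only [List.map_cons, Pf, List.foldl_cons, List.length_cons]
    rw [this]
    congr 2
    omega

theorem bsProb_eq {n : ℕ} {q : ℝ} (hq : 0 < q) (R : List (Fin n)) (w : Perm (Fin (n + 1))) :
    bsProb q R w = Pf (q / (1 + q)) (1 / (1 + q)) (dl (toL (1 : Perm (Fin (n + 1)))))
      (R.map Fin.val) (toL w) := by
  rw [Pf_toL hq R (fun w => if w = 1 then 1 else 0) (dl (toL (1 : Perm (Fin (n + 1))))) 0 ?_ w]
  · simp only [bsProb, coef, Nat.zero_add]
  · intro w
    unfold dl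
    by_cases h : w = 1
    · rw [h, if_pos rfl, if_pos rfl, len_one]; norm_num
    · rw [if_neg h, if_neg (fun h' => h (toL_injective h'))]; norm_num

theorem exists_toL {n : ℕ} (u : List ℕ) (hu : u.Perm (toL (1 : Perm (Fin (n + 1))))) :
    ∃ w : Perm (Fin (n + 1)), u = toL w := by
  have hl : u.length = n + 1 := hu.length_eq.trans (toL_length _)
  have hlt : ∀ x ∈ u, x < n + 1 := by
    intro x hx
    have := hu.subset hx
    simp only [toL, List.mem_ofFn, Perm.one_apply] at this
    obtain ⟨k, rfl⟩ := this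
    exact k.isLt
  have hnd : u.Nodup := by
    rw [hu.nodup_iff]
    unfold toL
    rw [List.nodup_ofFn]
    intro a b hab
    exact Fin.ext hab
  let f : Fin (n + 1) → Fin (n + 1) := fun k =>
    ⟨u[(k : ℕ)]'(by rw [hl]; exact k.isLt), hlt _ (List.getElem_mem _)⟩
  have hf : Function.Injective f := by
    intro a b hab
    simp only [f, Fin.mk.injEq] at hab
    exact Fin.ext ((List.Nodup.getElem_inj_iff hnd).mp hab)
  refine ⟨Equiv.ofBijective f (Finite.injective_iff_bijective.mp hf), ?_⟩
  apply List.ext_getElem?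
  intro k
  by_cases hk : k < n + 1
  · have h1 := toL_getElem? (Equiv.ofBijective f (Finite.injective_iff_bijective.mp hf)) ⟨k, hk⟩
    simp only at h1
    rw [h1, List.getElem?_eq_getElem (by omega)]
    rfl
  · rw [List.getElem?_eq_none (by omega), List.getElem?_eq_none (by rw [toL_length]; omega)]

theorem comm_lift {n : ℕ} (R : List (Fin n)) (S : List ℕ)
    (h : Comm (R.map Fin.val) S) : ∃ R' : List (Fin n), R'.map Fin.val = S ∧
      SameCommClass R R' := by
  induction h with
  | refl => exact ⟨R, rfl, Relation.ReflTransGen.refl⟩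
  | tail _ h2 ih =>
    obtain ⟨R', hR', hc⟩ := ih
    obtain ⟨A, B, i, j, hf, h3, h4⟩ := h2
    rw [← hR'] at h3
    obtain ⟨C, B', rfl, hC, hB⟩ := List.map_eq_append_iff.mp h3
    obtain ⟨A', D, rfl, hA, hD⟩ := List.map_eq_append_iff.mp hC
    obtain ⟨i', D', rfl, hi, hD'⟩ := List.map_eq_cons_iff.mp hD
    obtain ⟨j', D'', rfl, hj, hD''⟩ := List.map_eq_cons_iff.mp hD'
    have hnil : D'' = [] := by simpa using hD''
    subst hnil
    refine ⟨A' ++ [j', i'] ++ B', ?_, ?_⟩
    · rw [h4]; simp [hA, hB, hi, hj]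
    · refine Relation.ReflTransGen.tail hc ⟨A', B', i', j', ?_, rfl, rfl⟩
      rw [hi, hj]; exact hf

/-- For every real number `q > 0` and every `n`: two reduced words of the same permutation of
`S_{n+1}` whose Bott-Samelson distributions at `q` agree lie in the same commutation class. -/
theorem result (q : ℝ) (hq : 0 < q) (n : ℕ) (R₁ R₂ : List (Fin n)) (h₁ : Reduced R₁)
    (h₂ : Reduced R₂) (hw : wordProd R₁ = wordProd R₂)
    (hP : ∀ w : Perm (Fin (n + 1)), bsProb q R₁ w = bsProb q R₂ w) :
    SameCommClass R₁ R₂ := by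
  have hsorted : (toL (1 : Perm (Fin (n + 1)))).Pairwise (· < ·) := by
    unfold toL
    rw [List.pairwise_ofFn]
    intro i j hij
    simpa using hij
  have ha : 0 < q / (1 + q) := by positivity
  have hb : 0 < 1 / (1 + q) := by positivity
  have hab : q / (1 + q) + 1 / (1 + q) = 1 := by
    field_simp
    ring
  have hmain := main ha hb hab (n + 1) (toL 1) (toL_length _) hsorted (R₁.map Fin.val)
    (R₂.map Fin.val) (valid_of_reduced R₁ h₁) (valid_of_reduced R₂ h₂)
    (by rw [act_toL, act_toL, hw]) (by
      intro u hu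
      obtain ⟨w, rfl⟩ := exists_toL u hu
      rw [← bsProb_eq hq, ← bsProb_eq hq]
      exact hP w)
  obtain ⟨R', hR', hc⟩ := comm_lift R₁ _ hmain
  have : R' = R₂ := by
    apply List.map_injective_iff.mpr Fin.val_injective
    exact hR'
  rw [← this]
  exact hc

end Pool.Agent.Results.MP_4f027a_co.FixedQ
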